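import Mathlib

set_option autoImplicit false

open MeasureTheory Set Filter Topology

namespace Pool.Agent.Y936.EN

/-- The radial integral. -/
theorem radial (A : ℝ) (hA : 0 < A) :
    ∫⁻ r in Ioi (0 : ℝ), ENNReal.ofReal (r / (A * r ^ 2 + 1 / A) ^ 2) = ENNReal.ofReal (1 / 2) := by
  have hpos : ∀ r : ℝ, 0 < A * r ^ 2 + 1 / A := fun r => by positivity
  have hder : ∀ r ∈ Ici (0 : ℝ), HasDerivAt (fun r : ℝ => -(2 * A * (A * r ^ 2 + 1 / A))⁻¹)
      (r / (A * r ^ 2 + 1 / A) ^ 2) r := by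
    intro r _
    have h1 : HasDerivAt (fun r : ℝ => 2 * A * (A * r ^ 2 + 1 / A)) (2 * A * (A * (2 * r))) r := by
      have h2 : HasDerivAt (fun r : ℝ => r ^ 2) (2 * r) r := by
        simpa using hasDerivAt_pow 2 r
      exact ((h2.const_mul A).add_const (1 / A)).const_mul (2 * A)
    have hne : 2 * A * (A * r ^ 2 + 1 / A) ≠ 0 := by
      have := hpos r
      positivity
    have h3 := (h1.inv hne).neg
    refine h3.congr_deriv ?_
    have := (hpos r).ne'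
    field_simp
  have hnn : ∀ r ∈ Ioi (0 : ℝ), 0 ≤ r / (A * r ^ 2 + 1 / A) ^ 2 := by
    intro r hr
    have hr' : (0 : ℝ) < r := hr
    have := hpos r
    positivity
  have hlim : Tendsto (fun r : ℝ => -(2 * A * (A * r ^ 2 + 1 / A))⁻¹) atTop (𝓝 0) := by
    have h1 : Tendsto (fun r : ℝ => 2 * A * (A * r ^ 2 + 1 / A)) atTop atTop := by
      refine Tendsto.const_mul_atTop (by positivity) ?_
      refine tendsto_atTop_add_const_right _ _ ?_
      exact Tendsto.const_mul_atTop hA (tendsto_pow_atTop (by norm_num))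
    simpa using (tendsto_inv_atTop_zero.comp h1).neg
  have hint := integrableOn_Ioi_deriv_of_nonneg' hder hnn hlim
  have hval := integral_Ioi_of_hasDerivAt_of_nonneg' hder hnn hlim
  rw [← ofReal_integral_eq_lintegral_ofReal hint
    ((ae_restrict_iff' measurableSet_Ioi).2 (Eventually.of_forall hnn)), hval]
  congr 1
  field_simp
  ring

theorem t_PI (A : ℝ) (c : ℂ) (hA : 0 < A) : ∫⁻ z : ℂ, ENNReal.ofReal (1 / (A * ‖z - c‖ ^ 2 + 1 / A)) ^ 2 ≤ ENNReal.ofReal Real.pi := by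
  have hpos : ∀ r : ℝ, 0 < A * r ^ 2 + 1 / A := fun r => by positivity
  have h1 : ∫⁻ z : ℂ, ENNReal.ofReal (1 / (A * ‖z - c‖ ^ 2 + 1 / A)) ^ 2
      = ∫⁻ z : ℂ, ENNReal.ofReal (1 / (A * ‖z‖ ^ 2 + 1 / A)) ^ 2 :=
    lintegral_sub_right_eq_self
      (fun z : ℂ => ENNReal.ofReal (1 / (A * ‖z‖ ^ 2 + 1 / A)) ^ 2) c
  rw [h1, ← Complex.lintegral_comp_polarCoord_symm]
  have h2 : ∫⁻ p in polarCoord.target, ENNReal.ofReal p.1 •
      (ENNReal.ofReal (1 / (A * ‖Complex.polarCoord.symm p‖ ^ 2 + 1 / A)) ^ 2)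
      = ∫⁻ p in Ioi (0 : ℝ) ×ˢ Ioo (-Real.pi) Real.pi,
        ENNReal.ofReal (p.1 / (A * p.1 ^ 2 + 1 / A) ^ 2) * 1 := by
    rw [polarCoord_target]
    refine setLIntegral_congr_fun (measurableSet_Ioi.prod measurableSet_Ioo) ?_
    intro p hp
    have hp1 : (0 : ℝ) < p.1 := hp.1
    have := hpos p.1
    show ENNReal.ofReal p.1 •
      (ENNReal.ofReal (1 / (A * ‖Complex.polarCoord.symm p‖ ^ 2 + 1 / A)) ^ 2)
      = ENNReal.ofReal (p.1 / (A * p.1 ^ 2 + 1 / A) ^ 2) * 1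
    rw [Complex.norm_polarCoord_symm, sq_abs, smul_eq_mul, mul_one,
      ← ENNReal.ofReal_pow (by positivity), ← ENNReal.ofReal_mul hp1.le]
    congr 1
    field_simp
  have h3 : ∫⁻ p in Ioi (0 : ℝ) ×ˢ Ioo (-Real.pi) Real.pi,
        ENNReal.ofReal (p.1 / (A * p.1 ^ 2 + 1 / A) ^ 2) * 1
      = (∫⁻ r in Ioi (0 : ℝ), ENNReal.ofReal (r / (A * r ^ 2 + 1 / A) ^ 2)) *
        ∫⁻ _ in Ioo (-Real.pi) Real.pi, 1 := by
    rw [Measure.volume_eq_prod, ← Measure.prod_restrict]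
    refine lintegral_prod_mul (f := fun r : ℝ => ENNReal.ofReal (r / (A * r ^ 2 + 1 / A) ^ 2))
      (g := fun _ : ℝ => 1) ?_ aemeasurable_const
    exact (by fun_prop : Measurable fun r : ℝ =>
      ENNReal.ofReal (r / (A * r ^ 2 + 1 / A) ^ 2)).aemeasurable
  have h4 : ∫⁻ _ in Ioo (-Real.pi) Real.pi, (1 : ENNReal) = ENNReal.ofReal (2 * Real.pi) := by
    rw [setLIntegral_const, one_mul, Real.volume_Ioo]
    congr 1
    ring
  rw [h2, h3, h4, radial A hA, ← ENNReal.ofReal_mul (by norm_num)]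
  refine le_of_eq ?_
  congr 1
  ring

end Pool.Agent.Y936.EN
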